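import Mathlib
import Pool.Agent.T9h24.Ft.Adp

/-!
FU: the general theorem for properly intersecting subschemes, exact statements of the pieces.
-/

set_option autoImplicit false

open MvPolynomial Module

namespace Pool.Agent.T9h24.Fu

open Pool.Agent.T9h24 Pool.Agent.T9h24.Ft

/-- the score of an exponent -/
def sc {q d : ℕ} (t : Fin q → ℝ) (R : Finset (Fin q)) (b : Fin q → Fin (d + 1)) : ℝ :=
  ∑ i ∈ R, t i * ((b i : ℕ) : ℝ)

open Classical in
/-- the exponents whose score is at least `x` -/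
noncomputable def up {q d : ℕ} (t : Fin q → ℝ) (R : Finset (Fin q)) (x : ℝ) :
    Finset (Fin q → Fin (d + 1)) :=
  Finset.univ.filter fun b => x ≤ sc t R b

/-- **(U1)** The bound for the values of a form in the saturation of a sum of products of powers of
ideals (with one product: `T9h31.Ft.stBdPC`; the same proof with `good I (fun j y => ∑ e ∈ U, ∏ …)`). -/
def StBdU : Prop := ∀ (n q T d : ℕ) (a : Fin q → ℕ) (U : Finset (Fin q → ℕ))
  (I : Ideal (MvPolynomial (Fin (n + 1)) (AlgebraicClosure ℚ)))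
  (g : Fin q → Fin T → MvPolynomial (Fin (n + 1)) (AlgebraicClosure ℚ)),
  (∀ i t, (g i t).IsHomogeneous (a i)) →
  ∀ P : MvPolynomial (Fin (n + 1)) (AlgebraicClosure ℚ), P.IsHomogeneous d →
  P ∈ sat ((⨆ e ∈ U, ∏ i, (Ideal.span (Set.range (g i))) ^ e i) ⊔ I) →
  ∀ (F : Type) [NormedField F] [CharZero F] [IsAlgClosed F], ∃ A : ℝ, 1 ≤ A ∧
    ∀ (j : AlgebraicClosure ℚ →+* F) (y : Fin (n + 1) → F), y ≠ 0 →
    (∀ c : F, ∀ Q ∈ I, eval (c • y) (map j Q) = 0) →
    ‖eval y (map j P)‖ ≤ A * ‖y‖ ^ d * ∑ e ∈ U, Real.exp (-∑ i, (e i : ℝ) *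
      max 0 (Real.log (‖y‖ ^ a i / ‖fun t => eval y (map j (g i t))‖)))

/-- **(U2)** Choice of basis vectors: if `φ` is a basis of the dual space and `B l` are bases of `V`
then there are `c l` with `φ l (B l (c l)) ≠ 0` such that the coordinates are again independent.
(Replace one `φ l` after the other: `φ l = ∑ a, φ l (B l a) • (B l).coord a`; if for all `a` with
`φ l (B l a) ≠ 0` the family with `(B l).coord a` instead of `φ l` were dependent, all these
coordinates would be in the span of the others, hence `φ l` too.) -/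
def StChoice : Prop := ∀ (K V : Type) [Field K] [AddCommGroup V] [Module K V]
  [FiniteDimensional K V] (N : ℕ), finrank K V = N →
  ∀ φ : Fin N → Module.Dual K V, LinearIndependent K φ →
  ∀ B : Fin N → Module.Basis (Fin N) K V, ∃ c : Fin N → Fin N,
    (∀ l, φ l (B l (c l)) ≠ 0) ∧ LinearIndependent K (fun l => (B l).coord (c l))

/-- **(U3)** The combinatorial lemma, from (U2) and `T9h96.Ft.stTwo` (common adapted bases of two
filtrations). Sketch. For a set `R` of indices prove by induction (`Finset.induction_on`) the same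
statement with `sc (t l) R`, `up (t l) R` in place of `sc (t l) univ`, `up (t l) univ` and
`∑ l, ∑ i ∈ R, t l i * o i l ≤ ∑ l, x l`. `R = ∅`: the scores are `0`, `up = univ`, `C univ = ⊤`; if
`x l < 0` then `φ l = 0`, so `0 ≤ x l`. Step `insert i R`: for each `l` the submodules
`C (up (t l) R (sc (t l) R b0))` form a chain; number it by
`F m = C (univ.filter fun b => m ≤ rk b)`, `rk b = card of {sc (t l) R b' | sc (t l) R b' < sc (t l) R b}`,
so that `C (up (t l) R (sc (t l) R b0)) = F (rk b0)`. Let `B l` be a basis adapted to `F` and to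
`Vi i`. By (U2) there are `c l`. For `v = B l (c l)` let `b0` have the largest score `x' l` with
`v ∈ C (up (t l) R (sc (t l) R b0))` and let `o i l ≤ d` be the largest number with
`v ∈ Vi i (o i l)`. Then `(B l).coord (c l)` kills `C (up (t l) R (sc (t l) R b1))` if
`x' l < sc (t l) R b1` and `Vi i s` if `o i l < s ≤ d` (adapted basis). By the hypothesis on
intersections `v ∈ C (up (t l) (insert i R) (x' l + t l i * o i l))`, and
`x' l + t l i * o i l = sc (t l) (insert i R) (Function.update b0 i (o i l))`, hence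
`x' l + t l i * o i l ≤ x l`, as otherwise `φ l v = 0`. Now use the induction hypothesis for
`(B l).coord (c l)` and `x'`, and `Φ i l = (B l).coord (c l)`. -/
def StLemK : Prop := ∀ (K V : Type) [Field K] [AddCommGroup V] [Module K V]
  [FiniteDimensional K V] (N q d : ℕ), finrank K V = N →
  ∀ Vi : Fin q → ℕ → Submodule K V, (∀ i, Antitone (Vi i)) → (∀ i, Vi i 0 = ⊤) →
  ∀ C : Finset (Fin q → Fin (d + 1)) → Submodule K V, Monotone C → C Finset.univ = ⊤ →
  ∀ t : Fin N → Fin q → ℝ, (∀ l i, 0 ≤ t l i) →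
  (∀ l R i, i ∉ R → ∀ (b0 : Fin q → Fin (d + 1)) (o : ℕ), o ≤ d → ∀ v : V,
    v ∈ C (up (t l) R (sc (t l) R b0)) → v ∈ Vi i o →
      v ∈ C (up (t l) (insert i R) (sc (t l) R b0 + t l i * (o : ℝ)))) →
  ∀ φ : Fin N → Module.Dual K V, LinearIndependent K φ → ∀ x : Fin N → ℝ,
  (∀ l (b0 : Fin q → Fin (d + 1)), x l < sc (t l) Finset.univ b0 →
    ∀ v ∈ C (up (t l) Finset.univ (sc (t l) Finset.univ b0)), φ l v = 0) →
  ∃ (o : Fin q → Fin N → ℕ) (Φ : Fin q → Fin N → Module.Dual K V),
    (∀ i, LinearIndependent K (Φ i)) ∧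
    (∀ i l s, o i l < s → s ≤ d → ∀ v ∈ Vi i s, Φ i l v = 0) ∧
    ∑ l, ∑ i, t l i * (o i l : ℝ) ≤ ∑ l, x l

/-- the subschemes with indices in `A` intersect properly -/
def Proper {n T q : ℕ} (I : Ideal (MvPolynomial (Fin (n + 1)) (AlgebraicClosure ℚ)))
    (g : Fin q → Fin T → MvPolynomial (Fin (n + 1)) (AlgebraicClosure ℚ))
    (A : Finset (Fin q)) : Prop :=
  ∀ i ∈ A, ∀ (U : Finset (Fin q → ℕ)) (e : ℕ), (∀ b ∈ U, ∀ k, b k ≠ 0 → k ∈ A ∧ k ≠ i) →
  ∀ P, P ∈ sat ((⨆ b ∈ U, ∏ k, (Ideal.span (Set.range (g k))) ^ b k) ⊔ I) →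
    P ∈ sat ((Ideal.span (Set.range (g i))) ^ e ⊔ I) →
    P ∈ sat ((⨆ b ∈ U, ∏ k, (Ideal.span (Set.range (g k))) ^ b k) *
      (Ideal.span (Set.range (g i))) ^ e ⊔ I)

/-- **(R)** (optional) A criterion: regular sequences of hypersurface sections. Sketch: in the ring of
polynomials let `M` be an ideal generated by `I` and by monomials in the `f k`, `k ∈ B`. Then
`f i` is not a zero divisor modulo `sat M` for `i ∈ A`, `i ∉ B` (induction over the number of the
variables and over the exponents: `M : f k` and `M + (f k)` are again such ideals, and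
`P ∈ sat M ↔ …` by multiplication with `f k`), so `P f_i ^ e ∈ sat M → P ∈ sat M`. -/
def StReg : Prop := ∀ (n q : ℕ) (I : Ideal (MvPolynomial (Fin (n + 1)) (AlgebraicClosure ℚ)))
  (f : Fin q → MvPolynomial (Fin (n + 1)) (AlgebraicClosure ℚ)) (A : Finset (Fin q)),
  (∀ i ∈ A, ∀ B : Finset (Fin q), B ⊆ A → i ∉ B → ∀ P,
    f i * P ∈ sat (Ideal.span (f '' (B : Set (Fin q))) ⊔ I) →
      P ∈ sat (Ideal.span (f '' (B : Set (Fin q))) ⊔ I)) →
  Proper I (fun k (_ : Fin 1) => f k) A

end Pool.Agent.T9h24.Fu
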