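import Mathlib
import Pool.Agent.T9h24.Fu.Spec

/-!
FU: the mixed determinants at one place.
-/

set_option autoImplicit false
set_option linter.unusedSectionVars false

open Finset MvPolynomial NumberField IsDedekindDomain Module

namespace Pool.Agent.T9h24.Fu

open Pool.Agent.T9h24 Pool.Agent.T9h24.Ft

section weight

variable {K V : Type} [Field K] [AddCommGroup V] [Module K V] [FiniteDimensional K V]

/-- the functional with the coordinates `w` -/
noncomputable def fn {N : ℕ} (b : Basis (Fin (N + 1)) K V) (w : Fin (N + 1) → K) :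
    Module.Dual K V := b.dualBasis.equivFun.symm w

theorem fn_apply {N : ℕ} (b : Basis (Fin (N + 1)) K V) (w v : Fin (N + 1) → K) :
    fn b w (∑ k, v k • b k) = ∑ k, w k * v k := by
  unfold fn
  rw [Basis.equivFun_symm_apply, LinearMap.sum_apply]
  refine Finset.sum_congr rfl fun k _ => ?_
  rw [LinearMap.smul_apply, Basis.dualBasis_apply, smul_eq_mul]
  congr 1
  have h1 := b.equivFun_symm_apply v
  rw [← h1, ← Basis.equivFun_apply, LinearEquiv.apply_symm_apply]

theorem fn_indep {N : ℕ} (b : Basis (Fin (N + 1)) K V)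
    (w : Matrix (Fin (N + 1)) (Fin (N + 1)) K) (h : w.det ≠ 0) :
    LinearIndependent K (fun l => fn b (w l)) := by
  have h1 : LinearIndependent K w.row :=
    Matrix.linearIndependent_rows_iff_isUnit.2 ((Matrix.isUnit_iff_isUnit_det _).2
      (isUnit_iff_ne_zero.2 h))
  exact h1.map' b.dualBasis.equivFun.symm.toLinearMap
    (LinearMap.ker_eq_bot.2 b.dualBasis.equivFun.symm.injective)

/-- few independent functionals vanish on a large subspace -/
theorem card_le {N : ℕ} (hN : finrank K V = N + 1) (P : Submodule K V)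
    (Φ : Fin (N + 1) → Module.Dual K V) (hΦ : LinearIndependent K Φ)
    (J : Finset (Fin (N + 1))) (hJ : ∀ l ∈ J, ∀ v ∈ P, Φ l v = 0) :
    J.card ≤ N + 1 - finrank K P := by
  have h1 : LinearIndependent K (fun l : J => Φ l) := hΦ.comp _ Subtype.val_injective
  have h2 : LinearIndependent K (fun l : J => (⟨Φ l, (Submodule.mem_dualAnnihilator _).2
      (hJ l l.2)⟩ : P.dualAnnihilator)) := by
    refine LinearIndependent.of_comp P.dualAnnihilator.subtype ?_
    exact h1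
  have h3 := h2.fintype_card_le_finrank
  rw [Fintype.card_coe] at h3
  have h4 := Subspace.finrank_add_finrank_dualAnnihilator_eq P
  omega

open Classical in
/-- **The combinatorial bound**, with functionals. -/
theorem weight2 {N q r dd : ℕ} (hN : finrank K V = N + 1) (Fl : Fin q → ℕ → Submodule K V)
    {H : Type} [Fintype H] (θ : Fin q → Fin r → ℕ) (hθ : ∀ i u, θ i u ≤ dd)
    (μ : H → Fin q → ℝ) (δ : Fin q → Fin r → ℝ) (As : Fin q → Fin r → Finset H)
    (hδ : ∀ i u, 0 ≤ δ i u) (hμδ : ∀ τ i, μ τ i = ∑ u, if τ ∈ As i u then δ i u else 0)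
    (σ : Fin (N + 1) → H) (o : Fin q → Fin (N + 1) → ℕ)
    (Φ : Fin q → Fin (N + 1) → Module.Dual K V) (hΦ : ∀ i, LinearIndependent K (Φ i))
    (ho : ∀ i l s, o i l < s → s ≤ dd → ∀ v ∈ Fl i s, Φ i l v = 0) :
    ∑ i, ∑ u, δ i u * ((θ i u : ℝ) * cntA σ (As i u) - ((TF N (Fl i) (θ i u) : ℕ) : ℝ)) ≤
      ∑ l, ∑ i, μ (σ l) i * (o i l : ℝ) := by
  have h2 : ∑ l, ∑ i, μ (σ l) i * (o i l : ℝ) =
      ∑ i, ∑ u, δ i u * ((∑ l ∈ Finset.univ.filter (fun l => σ l ∈ As i u), o i l : ℕ) : ℝ) := by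
    rw [Finset.sum_comm]
    refine Finset.sum_congr rfl fun i _ => ?_
    have h3 : ∀ l ∈ (Finset.univ : Finset (Fin (N + 1))), μ (σ l) i * (o i l : ℝ) =
        ∑ u, if σ l ∈ As i u then δ i u * (o i l : ℝ) else 0 := by
      intro l _
      rw [hμδ, Finset.sum_mul]
      refine Finset.sum_congr rfl fun u _ => ?_
      split_ifs
      · ring
      · ring
    rw [Finset.sum_congr rfl h3, Finset.sum_comm]
    refine Finset.sum_congr rfl fun u _ => ?_
    push_cast
    rw [Finset.mul_sum, Finset.sum_filter]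
  rw [h2]
  refine Finset.sum_le_sum fun i _ => Finset.sum_le_sum fun u _ => ?_
  refine mul_le_mul_of_nonneg_left ?_ (hδ i u)
  set J := Finset.univ.filter (fun l => σ l ∈ As i u) with hJ
  have hcount : ∀ t, t ≤ dd → (J.filter fun l => o i l < t).card ≤
      N + 1 - finrank K (Fl i t) := fun t ht =>
    card_le hN _ _ (hΦ i) _ fun l hl => ho i l t (Finset.mem_filter.1 hl).2 ht
  have h3 : ∑ l ∈ J, (θ i u - o i l) ≤ TF N (Fl i) (θ i u) := by
    have e1 : ∑ l ∈ J, (θ i u - o i l) =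
        ∑ t ∈ Finset.range (θ i u), (J.filter fun l => o i l < t + 1).card := by
      simp only [tsub_eq_sum]
      rw [Finset.sum_comm]
      exact Finset.sum_congr rfl fun t _ => by rw [Finset.card_filter]
    rw [e1]
    refine Finset.sum_le_sum fun t ht => hcount (t + 1) ?_
    have := Finset.mem_range.1 ht
    have := hθ i u
    omega
  have h5 : θ i u * cntA σ (As i u) ≤ ∑ l ∈ J, o i l + TF N (Fl i) (θ i u) := by
    have h6 : θ i u * cntA σ (As i u) = ∑ _l ∈ J, θ i u := by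
      rw [Finset.sum_const, smul_eq_mul, mul_comm]
      rfl
    rw [h6]
    refine le_trans ?_ (Nat.add_le_add_left h3 _)
    rw [← Finset.sum_add_distrib]
    refine Finset.sum_le_sum fun l hl => ?_
    omega
  have h6 : ((θ i u * cntA σ (As i u) : ℕ) : ℝ) ≤
      ((∑ l ∈ J, o i l + TF N (Fl i) (θ i u) : ℕ) : ℝ) := by
    exact_mod_cast h5
  rw [Nat.cast_mul, Nat.cast_add (∑ l ∈ _, _)] at h6
  linarith

end weight

open Classical in
/-- **One place.** -/
theorem filt_place2 (hK : StLemK) {F : Type} [NormedField F] [CharZero F] [IsAlgClosed F]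
    {N q r dd : ℕ} {V : Type} [AddCommGroup V] [Module (AlgebraicClosure ℚ) V]
    [FiniteDimensional (AlgebraicClosure ℚ) V] (b : Basis (Fin (N + 1)) (AlgebraicClosure ℚ) V)
    {X : Type} (G' : Polynomial ℤ) (hG' : G' ≠ 0)
    (W : X → Matrix (Fin (N + 1)) (Fin (N + 1)) (AlgebraicClosure ℚ))
    (hWd : ∀ x, (W x).det ≠ 0) (hWr : ∀ e a i, W e a i ∈ (mp (AlgebraicClosure ℚ) G').roots)
    (Fl : Fin q → ℕ → Submodule (AlgebraicClosure ℚ) V) (hFa : ∀ i, Antitone (Fl i))
    (hF0 : ∀ i, Fl i 0 = ⊤)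
    (C : Finset (Fin q → Fin (dd + 1)) → Submodule (AlgebraicClosure ℚ) V) (hCm : Monotone C)
    (hC0 : C Finset.univ = ⊤)
    (θ : Fin q → Fin r → ℕ) (hθ : ∀ i u, θ i u ≤ dd)
    (A : ℝ) (hA : 1 ≤ A) : ∃ K0 : ℝ,
    ∀ (E : Type) [Field E] [NumberField E] (Y : Fin (N + 1) → 𝓞 E), Y ≠ 0 →
      ∀ (e : (E →+* F) → X) (j : AlgebraicClosure ℚ →+* F) (μ : (E →+* F) → Fin q → ℝ)
        (ν : (E →+* F) → Fin (N + 1) → ℝ), (∀ τ i, 0 ≤ μ τ i) →
      (∀ τ R i, i ∉ R → ∀ (b0 : Fin q → Fin (dd + 1)) (o : ℕ), o ≤ dd → ∀ v : V,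
        v ∈ C (up (μ τ) R (sc (μ τ) R b0)) → v ∈ Fl i o →
          v ∈ C (up (μ τ) (insert i R) (sc (μ τ) R b0 + μ τ i * (o : ℝ)))) →
      (∀ τ a (b0 : Fin q → Fin (dd + 1)), ν τ a < sc (μ τ) Finset.univ b0 →
        ∀ v ∈ C (up (μ τ) Finset.univ (sc (μ τ) Finset.univ b0)),
          fn b (fun k => (W (e τ))⁻¹ k a) v = 0) →
      (∀ τ a, ‖lf (fun i => j (W (e τ) a i)) (fun i => τ (Y i : E))‖ ≤
        A * ‖fun i => τ (Y i : E)‖ * Real.exp (-ν τ a)) →
      ∀ (δ : Fin q → Fin r → ℝ) (As : Fin q → Fin r → Finset (E →+* F)),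
      (∀ i u, 0 ≤ δ i u) → (∀ τ i, μ τ i = ∑ u, if τ ∈ As i u then δ i u else 0) →
      Mixed F G' Y (fun σ => ∑ i, ∑ u, δ i u * ((θ i u : ℝ) * cntA σ (As i u) -
        ((TF N (Fl i) (θ i u) : ℕ) : ℝ)) - K0) := by
  have hNV : finrank (AlgebraicClosure ℚ) V = N + 1 := by
    rw [finrank_eq_card_basis b, Fintype.card_fin]
  set RF : Finset F := (mp F G').roots.toFinset with hRF
  obtain ⟨M0, hM1, hM0⟩ := exists_big (fun p : (Fin (N + 1) → Fin (N + 1) → Fin (N + 1) → RF) ×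
    (Fin (N + 1) → Fin (N + 1)) => ‖(Matrix.of fun l i =>
      (Matrix.of fun a b => (p.1 l a b : F))⁻¹ i (p.2 l)).det‖)
  have hA0 : (0 : ℝ) < A := by linarith
  have hM00 : (0 : ℝ) < M0 := by exact_mod_cast hM1
  set KK : ℝ := ((N : ℝ) + 1) ^ (N + 1) * (A ^ (N + 1) * M0) with hKK
  have hKK0 : 0 < KK := by
    rw [hKK]
    positivity
  refine ⟨Real.log KK, fun E _ _ Y hY e j μ ν hμ hprop hkill hval δ As hδ hμδ => ?_⟩
  intro σ ξ hξ
  have hℓ : ∀ τ : E →+* F, (fun i => τ (Y i : E)) ≠ 0 := by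
    intro τ h0
    apply hY
    funext i
    have h1 : τ (Y i : E) = 0 := congrFun h0 i
    exact RingOfIntegers.ext (by simpa using h1)
  set Ξ : ℝ := ∑ i, ∑ u, δ i u * ((θ i u : ℝ) * cntA σ (As i u) -
        ((TF N (Fl i) (θ i u) : ℕ) : ℝ)) with hΞ
  have hr : ∀ τ a i, j (W (e τ) a i) ∈ (mp F G').roots := fun τ a i =>
    map_root hG' (hWr _ _ _) _
  have hval2 : ∀ l a, ‖∑ i, (W (e (σ l))).map j a i * ξ l i‖ ≤ A * Real.exp (-ν (σ l) a) := by
    intro l a
    have h1 := hξ l (fun i => j (W (e (σ l)) a i)) fun i => hr _ _ _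
    have h2 := h1.trans (hval (σ l) a)
    have h3 : 0 < ‖fun i => σ l (Y i : E)‖ := norm_pos_iff.2 (hℓ _)
    have h4 : A * ‖fun i => σ l (Y i : E)‖ * Real.exp (-ν (σ l) a) =
        (A * Real.exp (-ν (σ l) a)) * ‖fun i => σ l (Y i : E)‖ := by
      ring
    rw [h4] at h2
    exact le_of_mul_le_mul_right h2 h3
  have hdet : ∀ x, ((W x).map j).det ≠ 0 := by
    intro x
    have h1 : ((W x).map j).det = j (W x).det := (RingHom.map_det _ _).symm
    rw [h1]
    exact (map_ne_zero _).2 (hWd _)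
  have hinv : ∀ x, ((W x).map j)⁻¹ = ((W x)⁻¹).map j := by
    intro x
    apply Matrix.inv_eq_right_inv
    rw [← Matrix.map_mul, Matrix.mul_nonsing_inv _ (isUnit_iff_ne_zero.2 (hWd x)),
      Matrix.map_one _ (map_zero j) (map_one j)]
  have hmain := multi_bound2 (fun τ : E →+* F => (W (e τ)).map j) (fun τ => hdet _) σ ξ M0
    (A ^ (N + 1) * Real.exp (-Ξ)) (by positivity) hM00.le (fun κ => by
      have h2 := hM0 (fun l a b => ⟨j (W (e (σ l)) a b),
        Multiset.mem_toFinset.2 (hr _ _ _)⟩, κ)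
      exact h2)
    (fun κ hκ => by
      have h1 : ∏ l, ‖∑ i, (W (e (σ l))).map j (κ l) i * ξ l i‖ ≤ ∏ l, (A *
          Real.exp (-ν (σ l) (κ l))) :=
        Finset.prod_le_prod (fun l _ => norm_nonneg _) fun l _ => hval2 l (κ l)
      refine h1.trans ?_
      rw [Finset.prod_mul_distrib, Finset.prod_const, Finset.card_univ, Fintype.card_fin,
        ← Real.exp_sum, Finset.sum_neg_distrib]
      refine mul_le_mul_of_nonneg_left (Real.exp_le_exp.2 (neg_le_neg ?_)) (by positivity)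
      have hdw : (Matrix.of fun l i => (W (e (σ l)))⁻¹ i (κ l)).det ≠ 0 := by
        intro h0
        apply hκ
        have h2 : (Matrix.of fun l i => ((W (e (σ l))).map j)⁻¹ i (κ l)) =
            (Matrix.of fun l i => (W (e (σ l)))⁻¹ i (κ l)).map j := by
          ext l i
          rw [Matrix.of_apply, Matrix.map_apply, Matrix.of_apply, hinv, Matrix.map_apply]
        have h3 : ((Matrix.of fun l i => (W (e (σ l)))⁻¹ i (κ l)).map j).det =
            j (Matrix.of fun l i => (W (e (σ l)))⁻¹ i (κ l)).det := (RingHom.map_det _ _).symm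
        rw [h2, h3, h0, map_zero]
      obtain ⟨o, Φ, hΦ, ho, hsum⟩ := hK (AlgebraicClosure ℚ) V (N + 1) q dd hNV Fl hFa hF0 C hCm
        hC0 (fun l => μ (σ l)) (fun l => hμ (σ l)) (fun l => hprop (σ l))
        (fun l => fn b (fun k => (W (e (σ l)))⁻¹ k (κ l)))
        (fn_indep b (Matrix.of fun l i => (W (e (σ l)))⁻¹ i (κ l)) hdw)
        (fun l => ν (σ l) (κ l)) (fun l => hkill (σ l) (κ l))
      exact (weight2 hNV Fl θ hθ μ δ As hδ hμδ σ o Φ hΦ ho).trans hsum)
  refine hmain.trans (le_of_eq ?_)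
  have h1 : -(Ξ - Real.log KK) = -Ξ + Real.log KK := by ring
  show _ = Real.exp (-(Ξ - Real.log KK))
  rw [h1, Real.exp_add, Real.exp_log hKK0, hKK]
  ring

end Pool.Agent.T9h24.Fu
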