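import Mathlib
import Pool.Agent.T9h24.Fu.Plc
import Pool.Agent.T9h24.Ft.Pair

/-!
FU: the filtrations by the exponents.
-/

set_option autoImplicit false
set_option linter.unusedSectionVars false

open Finset MvPolynomial NumberField IsDedekindDomain Module

namespace Pool.Agent.T9h24.Fu

open Pool.Agent.T9h24 Pool.Agent.T9h24.Ft
open Pool.Agent.TH875 (VM VM_finite)

/-! ### Ranks -/

section rank

variable {X : Type} [Fintype X]

open Classical in
/-- the rank of an element -/
noncomputable def rk (s : X → ℝ) (e : X) : ℕ :=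
  ((Finset.univ.image s).filter fun x => x < s e).card

theorem rk_le (s : X → ℝ) (e : X) : rk s e ≤ Fintype.card X := by
  classical
  unfold rk
  refine (Finset.card_filter_le _ _).trans ?_
  exact Finset.card_image_le

theorem rk_iff (s : X → ℝ) (e0 e : X) : rk s e0 ≤ rk s e ↔ s e0 ≤ s e := by
  classical
  constructor
  · intro h
    by_contra hlt
    rw [not_le] at hlt
    have h1 : rk s e < rk s e0 := by
      unfold rk
      refine Finset.card_lt_card ⟨?_, ?_⟩
      · intro x hx
        obtain ⟨h2, h3⟩ := Finset.mem_filter.1 hx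
        exact Finset.mem_filter.2 ⟨h2, h3.trans hlt⟩
      · intro hsub
        have h2 := hsub (Finset.mem_filter.2
          ⟨Finset.mem_image_of_mem s (Finset.mem_univ e), hlt⟩)
        exact lt_irrefl _ (Finset.mem_filter.1 h2).2
    omega
  · intro h
    unfold rk
    refine Finset.card_le_card fun x hx => ?_
    obtain ⟨h2, h3⟩ := Finset.mem_filter.1 hx
    exact Finset.mem_filter.2 ⟨h2, h3.trans_le h⟩

end rank

/-! ### Adapted bases -/

section bases

variable {K V : Type} [Field K] [AddCommGroup V] [Module K V] [FiniteDimensional K V]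

/-- a basis adapted to a filtration, as a matrix -/
theorem one_basis {N : ℕ} (b : Basis (Fin (N + 1)) K V) (H : ℕ → Submodule K V)
    (hH : Antitone H) :
    ∃ W : Matrix (Fin (N + 1)) (Fin (N + 1)) K, W.det ≠ 0 ∧ ∀ m a,
      ∑ k, W a k • b k ∉ H m → ∀ v ∈ H m, fn b (fun k => W⁻¹ k a) v = 0 := by
  have hN : finrank K V = N + 1 := by
    rw [finrank_eq_card_basis b, Fintype.card_fin]
  obtain ⟨B, hB, -⟩ := Pool.Agent.T9h96.Ft.stTwo K V (N + 1) hN H H hH hH
  set W : Matrix (Fin (N + 1)) (Fin (N + 1)) K := Matrix.of fun a k => b.repr (B a) k with hW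
  have hWB : ∀ a, ∑ k, W a k • b k = B a := fun a => b.sum_repr (B a)
  have hdet : W.det ≠ 0 := by
    have h1 : LinearIndependent K W.row := by
      have h2 := B.linearIndependent.map' b.equivFun.toLinearMap
        (LinearMap.ker_eq_bot.2 b.equivFun.injective)
      exact h2
    exact isUnit_iff_ne_zero.1 ((Matrix.isUnit_iff_isUnit_det _).1
      (Matrix.linearIndependent_rows_iff_isUnit.1 h1))
  have hfn : ∀ a a', fn b (fun k => W⁻¹ k a) (B a') = if a' = a then 1 else 0 := by
    intro a a'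
    rw [← hWB a', fn_apply]
    have h1 : W * W⁻¹ = 1 := Matrix.mul_nonsing_inv _ (isUnit_iff_ne_zero.2 hdet)
    have h2 := congrFun (congrFun h1 a') a
    rw [Matrix.mul_apply, Matrix.one_apply] at h2
    rw [← h2]
    exact Finset.sum_congr rfl fun k _ => mul_comm _ _
  refine ⟨W, hdet, fun m a ha v hv => ?_⟩
  rw [hWB] at ha
  rw [hB m] at hv
  induction hv using Submodule.span_induction with
  | mem x hx =>
    obtain ⟨a', ha', rfl⟩ := hx
    rw [hfn, if_neg]
    rintro rfl
    exact ha ha'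
  | zero => exact map_zero _
  | add x y _ _ hx hy => rw [map_add, hx, hy, add_zero]
  | smul c x _ hx => rw [map_smul, hx, smul_zero]

end bases

/-! ### The ideals -/

section ideals

variable {n T q d : ℕ} {I : Ideal (MvPolynomial (Fin (n + 1)) (AlgebraicClosure ℚ))}
  {g : Fin q → Fin T → MvPolynomial (Fin (n + 1)) (AlgebraicClosure ℚ)}

/-- the classes of the forms in the saturation of the sum of the products of powers -/
noncomputable def CC (I : Ideal (MvPolynomial (Fin (n + 1)) (AlgebraicClosure ℚ)))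
    (g : Fin q → Fin T → MvPolynomial (Fin (n + 1)) (AlgebraicClosure ℚ)) (d : ℕ)
    (U : Finset (Fin q → Fin (d + 1))) : Submodule (AlgebraicClosure ℚ) (VM I d) :=
  CV I d (⨆ e ∈ U, ∏ i, (Ideal.span (Set.range (g i))) ^ ((e i : Fin (d + 1)) : ℕ))

theorem CV_mono {J J' : Ideal (MvPolynomial (Fin (n + 1)) (AlgebraicClosure ℚ))} (h : J ≤ J') :
    CV I d J ≤ CV I d J' := by
  refine Submodule.comap_mono (Submodule.map_mono (inf_le_inf le_rfl ?_))
  intro P hP
  exact sat_mono (sup_le_sup h le_rfl) hP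

theorem CC_mono : Monotone (CC I g d) := fun _ _ h =>
  CV_mono (biSup_mono fun _ he => h he)

theorem CV_top {J : Ideal (MvPolynomial (Fin (n + 1)) (AlgebraicClosure ℚ))} (h : J = ⊤) :
    CV I d J = ⊤ := by
  rw [eq_top_iff]
  rintro ⟨v, hv⟩ -
  obtain ⟨P, hP, rfl⟩ := hv
  refine ⟨P, ⟨hP, ?_⟩, rfl⟩
  rw [h, top_sup_eq]
  exact le_sat _ Submodule.mem_top

theorem CC_top : CC I g d Finset.univ = ⊤ := by
  refine CV_top (eq_top_iff.2 ?_)
  refine le_trans ?_ (le_iSup₂_of_le (f := fun (e : Fin q → Fin (d + 1)) (_ : e ∈ Finset.univ) =>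
    ∏ i, (Ideal.span (Set.range (g i))) ^ ((e i : Fin (d + 1)) : ℕ)) (fun _ => 0)
    (Finset.mem_univ _) le_rfl)
  simp

/-- the intersection property for the scores -/
theorem prop_of_proper {A : Finset (Fin q)} (hA : Proper I g A) (t : Fin q → ℝ)
    (htA : ∀ i, t i ≠ 0 → i ∈ A) (R : Finset (Fin q)) (i : Fin q) (hi : i ∉ R)
    (b0 : Fin q → Fin (d + 1)) (o : ℕ) (ho : o ≤ d) (v : VM I d)
    (hv : v ∈ CC I g d (up t R (sc t R b0))) (hv' : v ∈ FV I (g i) d o) :
    v ∈ CC I g d (up t (insert i R) (sc t R b0 + t i * (o : ℝ))) := by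
  classical
  by_cases hti : t i = 0
  · have h1 : (up t (insert i R) (sc t R b0 + t i * (o : ℝ)) : Finset (Fin q → Fin (d + 1))) =
        up t R (sc t R b0) := by
      unfold up sc
      refine Finset.filter_congr fun b _ => ?_
      rw [Finset.sum_insert hi, hti, zero_mul, zero_mul, add_zero, zero_add]
    rw [h1]
    exact hv
  have hiA := htA i hti
  refine CV_inter _ _ _ (fun P hP hP' => ?_) v hv hv'
  set x := sc t R b0 with hx
  set rs : (Fin q → Fin (d + 1)) → Fin q → Fin (d + 1) := fun b k =>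
    if k ∈ R ∧ t k ≠ 0 then b k else 0 with hrs
  set U' : Finset (Fin q → ℕ) := (up t R x).image fun b k => ((rs b k : Fin (d + 1)) : ℕ)
    with hU'
  have hle : (⨆ e ∈ (up t R x : Finset (Fin q → Fin (d + 1))),
      ∏ k, (Ideal.span (Set.range (g k))) ^ ((e k : Fin (d + 1)) : ℕ)) ≤
      ⨆ e ∈ U', ∏ k, (Ideal.span (Set.range (g k))) ^ e k := by
    refine iSup₂_le fun b hb => ?_
    refine le_trans ?_ (le_iSup₂_of_le (f := fun (e : Fin q → ℕ) (_ : e ∈ U') =>
      ∏ k, (Ideal.span (Set.range (g k))) ^ e k) (fun k => ((rs b k : Fin (d + 1)) : ℕ))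
      (Finset.mem_image_of_mem _ hb) le_rfl)
    refine Finset.prod_le_prod' fun k _ => ?_
    refine Ideal.pow_le_pow_right ?_
    simp only [hrs]
    split_ifs
    · exact le_rfl
    · exact Nat.zero_le _
  have hP1 : P ∈ sat ((⨆ e ∈ U', ∏ k, (Ideal.span (Set.range (g k))) ^ e k) ⊔ I) :=
    sat_mono (sup_le_sup hle le_rfl) hP
  have hrsi : ∀ b, rs b i = 0 := fun b => if_neg fun h => hi h.1
  have h2 := hA i hiA U' o (fun b hb k hk => by
    obtain ⟨b', -, rfl⟩ := Finset.mem_image.1 hb
    have h3 : k ∈ R ∧ t k ≠ 0 := by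
      by_contra h3
      apply hk
      simp only [hrs]
      rw [if_neg h3]
      rfl
    exact ⟨htA k h3.2, fun h4 => hi (h4 ▸ h3.1)⟩) P hP1 hP'
  refine sat_mono (sup_le_sup ?_ le_rfl) h2
  rw [Ideal.iSup_mul]
  refine iSup_le fun b => ?_
  rw [Ideal.iSup_mul]
  refine iSup_le fun hb => ?_
  obtain ⟨b', hb', rfl⟩ := Finset.mem_image.1 hb
  set e' : Fin q → Fin (d + 1) := Function.update (rs b') i ⟨o, by omega⟩ with he'
  have hmem : e' ∈ (up t (insert i R) (x + t i * (o : ℝ)) : Finset (Fin q → Fin (d + 1))) := by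
    refine Finset.mem_filter.2 ⟨Finset.mem_univ _, ?_⟩
    have h3 := (Finset.mem_filter.1 hb').2
    unfold sc at h3 ⊢
    rw [Finset.sum_insert hi]
    have h4 : ∑ k ∈ R, t k * (((e' k : Fin (d + 1)) : ℕ) : ℝ) =
        ∑ k ∈ R, t k * (((b' k : Fin (d + 1)) : ℕ) : ℝ) := by
      refine Finset.sum_congr rfl fun k hk => ?_
      have hki : k ≠ i := fun h => hi (h ▸ hk)
      rw [he', Function.update_of_ne hki]
      by_cases htk : t k = 0
      · rw [htk, zero_mul, zero_mul]
      · simp only [hrs]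
        rw [if_pos ⟨hk, htk⟩]
    rw [h4, he', Function.update_self]
    linarith
  refine le_trans ?_ (le_iSup₂_of_le (f := fun (e : Fin q → Fin (d + 1))
    (_ : e ∈ (up t (insert i R) (x + t i * (o : ℝ)) : Finset (Fin q → Fin (d + 1)))) =>
    ∏ k, (Ideal.span (Set.range (g k))) ^ ((e k : Fin (d + 1)) : ℕ)) e' hmem le_rfl)
  have e1 : ∏ k, (Ideal.span (Set.range (g k))) ^ ((rs b' k : Fin (d + 1)) : ℕ) =
      ∏ k ∈ Finset.univ.erase i, (Ideal.span (Set.range (g k))) ^
        ((rs b' k : Fin (d + 1)) : ℕ) := by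
    rw [← Finset.mul_prod_erase _ _ (Finset.mem_univ i), hrsi]
    simp
  have e2 : ∏ k, (Ideal.span (Set.range (g k))) ^ ((e' k : Fin (d + 1)) : ℕ) =
      (Ideal.span (Set.range (g i))) ^ o * ∏ k ∈ Finset.univ.erase i,
        (Ideal.span (Set.range (g k))) ^ ((rs b' k : Fin (d + 1)) : ℕ) := by
    rw [← Finset.mul_prod_erase _ _ (Finset.mem_univ i), he', Function.update_self]
    congr 1
    refine Finset.prod_congr rfl fun k hk => ?_
    rw [Function.update_of_ne (Finset.ne_of_mem_erase hk)]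
  rw [e2]
  show (∏ k, (Ideal.span (Set.range (g k))) ^ ((rs b' k : Fin (d + 1)) : ℕ)) * _ ≤ _
  rw [e1, mul_comm]

/-- one subscheme -/
theorem proper_single (i : Fin q) : Proper I g {i} := by
  intro i' hi' U e hU P hP hP'
  have hii : i' = i := Finset.mem_singleton.1 hi'
  subst hii
  have hU0 : ∀ b ∈ U, b = 0 := by
    intro b hb
    funext k
    by_contra hk
    obtain ⟨h1, h2⟩ := hU b hb k hk
    exact h2 (Finset.mem_singleton.1 h1)
  rcases U.eq_empty_or_nonempty with h0 | ⟨b, hb⟩
  · subst h0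
    refine sat_mono (sup_le_sup ?_ le_rfl) hP
    simp
  · refine sat_mono (sup_le_sup ?_ le_rfl) hP'
    have h1 : (⊤ : Ideal (MvPolynomial (Fin (n + 1)) (AlgebraicClosure ℚ))) ≤
        ⨆ b ∈ U, ∏ k, (Ideal.span (Set.range (g k))) ^ b k := by
      refine le_trans ?_ (le_iSup₂_of_le (f := fun (e : Fin q → ℕ) (_ : e ∈ U) =>
        ∏ k, (Ideal.span (Set.range (g k))) ^ e k) b hb le_rfl)
      rw [hU0 b hb]
      simp
    rw [eq_top_iff.2 h1, Ideal.top_mul]

/-- two subschemes -/
theorem proper_pair (i i' : Fin q) (hne : i ≠ i') (h : Indep I (g i) (g i')) :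
    Proper I g {i, i'} := by
  have hind : Indep I (g i') (g i) := by
    intro e e' P h1 h2
    rw [mul_comm]
    exact h e' e P h2 h1
  -- one of the two, with the other
  have key : ∀ a c : Fin q, a ≠ c → Indep I (g c) (g a) → ∀ (U : Finset (Fin q → ℕ)) (e : ℕ),
      (∀ b ∈ U, ∀ k, b k ≠ 0 → k = c) →
      ∀ P, P ∈ sat ((⨆ b ∈ U, ∏ k, (Ideal.span (Set.range (g k))) ^ b k) ⊔ I) →
      P ∈ sat ((Ideal.span (Set.range (g a))) ^ e ⊔ I) →
      P ∈ sat ((⨆ b ∈ U, ∏ k, (Ideal.span (Set.range (g k))) ^ b k) *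
        (Ideal.span (Set.range (g a))) ^ e ⊔ I) := by
    intro a c hac hI U e hU P hP hP'
    rcases U.eq_empty_or_nonempty with h0 | hne
    · subst h0
      refine sat_mono (sup_le_sup ?_ le_rfl) hP
      simp
    obtain ⟨b0, hb0, hmin⟩ := Finset.exists_min_image U (fun b => b c) hne
    have hprod : ∀ b ∈ U, ∏ k, (Ideal.span (Set.range (g k))) ^ b k =
        (Ideal.span (Set.range (g c))) ^ b c := by
      intro b hb
      refine Finset.prod_eq_single c (fun k _ hk => ?_) (fun h => absurd (Finset.mem_univ _) h)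
      have h1 : b k = 0 := by
        by_contra h2
        exact hk (hU b hb k h2)
      rw [h1, pow_zero]
    have hsup : (⨆ b ∈ U, ∏ k, (Ideal.span (Set.range (g k))) ^ b k) =
        (Ideal.span (Set.range (g c))) ^ b0 c := by
      refine le_antisymm (iSup₂_le fun b hb => ?_) ?_
      · rw [hprod b hb]
        exact Ideal.pow_le_pow_right (hmin b hb)
      · rw [← hprod b0 hb0]
        exact le_iSup₂_of_le (f := fun (e : Fin q → ℕ) (_ : e ∈ U) =>
          ∏ k, (Ideal.span (Set.range (g k))) ^ e k) b0 hb0 le_rfl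
    rw [hsup] at hP ⊢
    exact hI _ _ P hP hP'
  intro k hk U e hU P hP hP'
  rcases Finset.mem_insert.1 hk with h1 | h1
  · subst h1
    refine key k i' hne hind U e (fun b hb a ha => ?_) P hP hP'
    obtain ⟨h2, h3⟩ := hU b hb a ha
    rcases Finset.mem_insert.1 h2 with h4 | h4
    · exact absurd h4 h3
    · exact Finset.mem_singleton.1 h4
  · rw [Finset.mem_singleton] at h1
    subst h1
    refine key k i hne.symm h U e (fun b hb a ha => ?_) P hP hP'
    obtain ⟨h2, h3⟩ := hU b hb a ha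
    rcases Finset.mem_insert.1 h2 with h4 | h4
    · exact h4
    · exact absurd (Finset.mem_singleton.1 h4) h3

end ideals

end Pool.Agent.T9h24.Fu
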