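import Mathlib
import Pool.Agent.T9h24.Fu.Fin

/-!
FU: the combinatorial lemma.
-/

set_option autoImplicit false
set_option linter.unusedSectionVars false

open Finset Module

namespace Pool.Agent.T9h24.Fu

open Pool.Agent.T9h24 Pool.Agent.T9h24.Ft

section

variable {K V : Type} [Field K] [AddCommGroup V] [Module K V] [FiniteDimensional K V]

/-- coordinates for an adapted basis -/
theorem coord_kill {N : ℕ} (B : Basis (Fin N) K V) (H : Submodule K V)
    (hB : H = Submodule.span K (B '' {a | B a ∈ H})) (c : Fin N) (hc : B c ∉ H) :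
    ∀ v ∈ H, B.coord c v = 0 := by
  intro v hv
  rw [hB] at hv
  induction hv using Submodule.span_induction with
  | mem x hx =>
    obtain ⟨a, ha, rfl⟩ := hx
    rw [Basis.coord_apply, Basis.repr_self, Finsupp.single_apply, if_neg]
    rintro rfl
    exact hc ha
  | zero => exact map_zero _
  | add x y _ _ hx hy => rw [map_add, hx, hy, add_zero]
  | smul c x _ hx => rw [map_smul, hx, smul_zero]

theorem up_rk' {q d : ℕ} (t : Fin q → ℝ) (R : Finset (Fin q)) (b0 : Fin q → Fin (d + 1)) :
    (up t R (sc t R b0) : Finset (Fin q → Fin (d + 1))) =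
      Finset.univ.filter fun e => rk (sc t R) b0 ≤ rk (sc t R) e := by
  classical
  unfold up
  ext e
  simp only [Finset.mem_filter, Finset.mem_univ, true_and]
  exact (rk_iff _ _ _).symm

theorem exists_score' {q d : ℕ} (C : Finset (Fin q → Fin (d + 1)) → Submodule K V)
    (hC0 : C Finset.univ = ⊤) (t : Fin q → ℝ) (R : Finset (Fin q)) (v : V) :
    ∃ b0 : Fin q → Fin (d + 1), v ∈ C (up t R (sc t R b0)) ∧
    ∀ b1 : Fin q → Fin (d + 1), sc t R b0 < sc t R b1 → v ∉ C (up t R (sc t R b1)) := by
  classical
  obtain ⟨bm, -, hbm⟩ := Finset.exists_min_image (Finset.univ : Finset (Fin q → Fin (d + 1)))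
    (fun b => sc t R b) Finset.univ_nonempty
  have hm : bm ∈ Finset.univ.filter fun b0 : Fin q → Fin (d + 1) =>
      v ∈ C (up t R (sc t R b0)) := by
    refine Finset.mem_filter.2 ⟨Finset.mem_univ _, ?_⟩
    have h1 : (up t R (sc t R bm) : Finset (Fin q → Fin (d + 1))) = Finset.univ := by
      unfold up
      exact Finset.filter_true_of_mem fun b hb => hbm b hb
    rw [h1, hC0]
    exact Submodule.mem_top
  obtain ⟨b0, hb0, hmax⟩ := Finset.exists_max_image _ (fun b => sc t R b) ⟨bm, hm⟩
  refine ⟨b0, (Finset.mem_filter.1 hb0).2, fun b1 hlt hmem => ?_⟩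
  exact absurd (hmax b1 (Finset.mem_filter.2 ⟨Finset.mem_univ _, hmem⟩)) (not_le.2 hlt)

end

theorem stLemK (hCh : StChoice) : StLemK := by
  classical
  intro K V _ _ _ _ N q d hN Vi hVa hV0 C hCm hC0 t ht hprop
  have H : ∀ R : Finset (Fin q), ∀ φ : Fin N → Module.Dual K V, LinearIndependent K φ →
      ∀ x : Fin N → ℝ,
      (∀ l (b0 : Fin q → Fin (d + 1)), x l < sc (t l) R b0 →
        ∀ v ∈ C (up (t l) R (sc (t l) R b0)), φ l v = 0) →
      ∃ (o : Fin q → Fin N → ℕ) (Φ : Fin q → Fin N → Module.Dual K V),
        (∀ i, LinearIndependent K (Φ i)) ∧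
        (∀ i ∈ R, ∀ l s, o i l < s → s ≤ d → ∀ v ∈ Vi i s, Φ i l v = 0) ∧
        ∑ l, ∑ i ∈ R, t l i * (o i l : ℝ) ≤ ∑ l, x l := by
    intro R
    induction R using Finset.induction_on with
    | empty =>
      intro φ hφ x hx
      refine ⟨fun _ _ => 0, fun _ => φ, fun _ => hφ, by simp, ?_⟩
      simp only [Finset.sum_empty, Finset.sum_const_zero]
      refine Finset.sum_nonneg fun l _ => ?_
      by_contra hlt
      rw [not_le] at hlt
      apply hφ.ne_zero l
      refine LinearMap.ext fun v => ?_
      refine hx l (fun _ => 0) ?_ v ?_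
      · unfold sc
        rw [Finset.sum_empty]
        exact hlt
      · have h1 : (up (t l) ∅ (sc (t l) ∅ (fun _ => (0 : Fin (d + 1)))) :
            Finset (Fin q → Fin (d + 1))) = Finset.univ := by
          unfold up sc
          exact Finset.filter_true_of_mem fun b _ => by
            rw [Finset.sum_empty, Finset.sum_empty]
        rw [h1, hC0]
        exact Submodule.mem_top
    | insert i R hi ih =>
      intro φ hφ x hx
      -- the adapted bases
      have hB : ∀ l : Fin N, ∃ B : Basis (Fin N) K V,
          (∀ m, C (Finset.univ.filter fun b => m ≤ rk (sc (t l) R) b) = Submodule.span K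
            (B '' {a | B a ∈ C (Finset.univ.filter fun b => m ≤ rk (sc (t l) R) b)})) ∧
          ∀ e, Vi i e = Submodule.span K (B '' {a | B a ∈ Vi i e}) := by
        intro l
        refine Pool.Agent.T9h96.Ft.stTwo K V N hN
          (fun m => C (Finset.univ.filter fun b => m ≤ rk (sc (t l) R) b)) (Vi i) ?_ (hVa i)
        intro m m' h
        exact hCm fun e he => Finset.mem_filter.2 ⟨Finset.mem_univ _,
          h.trans (Finset.mem_filter.1 he).2⟩
      choose B hB1 hB2 using hB
      obtain ⟨c, hc1, hc2⟩ := hCh K V N hN φ hφ B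
      choose b0 hb1 hb2 using fun l : Fin N =>
        exists_score' C hC0 (t l) R (B l (c l))
      set oi : Fin N → ℕ := fun l => ordf (Vi i) d (B l (c l)) with hoi
      have hod : ∀ l, oi l ≤ d := by
        intro l
        simp only [hoi, ordf]
        refine (Finset.card_filter_le _ _).trans ?_
        rw [Finset.card_range]
      have hom : ∀ l, B l (c l) ∈ Vi i (oi l) := fun l => mem_ordf (hVa i) (hV0 i) _
      have hx' : ∀ l, sc (t l) R (b0 l) + t l i * (oi l : ℝ) ≤ x l := by
        intro l
        by_contra hlt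
        rw [not_le] at hlt
        apply hc1 l
        have h1 := hprop l R i hi (b0 l) (oi l) (hod l) _ (hb1 l) (hom l)
        set b1 : Fin q → Fin (d + 1) := Function.update (b0 l) i
          ⟨oi l, Nat.lt_succ_of_le (hod l)⟩ with hb1'
        have h2 : sc (t l) (insert i R) b1 = sc (t l) R (b0 l) + t l i * (oi l : ℝ) := by
          unfold sc
          rw [Finset.sum_insert hi, hb1', Function.update_self, add_comm]
          congr 1
          refine Finset.sum_congr rfl fun k hk => ?_
          have hki : k ≠ i := fun h => hi (h ▸ hk)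
          rw [Function.update_of_ne hki]
        refine hx l b1 (by rw [h2]; exact hlt) _ ?_
        rw [h2]
        exact h1
      have hkill : ∀ l (b1 : Fin q → Fin (d + 1)), sc (t l) R (b0 l) < sc (t l) R b1 →
          ∀ v ∈ C (up (t l) R (sc (t l) R b1)), (B l).coord (c l) v = 0 := by
        intro l b1 hlt v hv
        have h1 := hb2 l b1 hlt
        rw [up_rk'] at h1 hv
        exact coord_kill (B l) _ (hB1 l _) (c l) h1 v hv
      obtain ⟨o', Φ', h1, h2, h3⟩ := ih (fun l => (B l).coord (c l)) hc2
        (fun l => sc (t l) R (b0 l)) hkill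
      refine ⟨Function.update o' i oi, Function.update Φ' i fun l => (B l).coord (c l),
        fun k => ?_, fun k hk l s hs hsd v hv => ?_, ?_⟩
      · by_cases hk : k = i
        · subst hk
          rw [Function.update_self]
          exact hc2
        · rw [Function.update_of_ne hk]
          exact h1 k
      · by_cases hki : k = i
        · subst hki
          rw [Function.update_self] at hs ⊢
          refine coord_kill (B l) _ (hB2 l s) (c l) ?_ v hv
          intro hmem
          have h4 := (le_ordf_iff (hVa k) (hV0 k) hsd (B l (c l))).2 hmem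
          exact absurd h4 (not_le.2 hs)
        · rw [Function.update_of_ne hki] at hs ⊢
          rcases Finset.mem_insert.1 hk with h4 | h4
          · exact absurd h4 hki
          · exact h2 k h4 l s hs hsd v hv
      · have h4 : ∀ l ∈ (Finset.univ : Finset (Fin N)),
            ∑ k ∈ insert i R, t l k * ((Function.update o' i oi k l : ℕ) : ℝ) =
              t l i * (oi l : ℝ) + ∑ k ∈ R, t l k * (o' k l : ℝ) := by
          intro l _
          rw [Finset.sum_insert hi, Function.update_self]
          congr 1
          refine Finset.sum_congr rfl fun k hk => ?_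
          have hki : k ≠ i := fun h => hi (h ▸ hk)
          rw [Function.update_of_ne hki]
        rw [Finset.sum_congr rfl h4, Finset.sum_add_distrib]
        have h5 : ∑ l, (sc (t l) R (b0 l) + t l i * (oi l : ℝ)) ≤ ∑ l, x l :=
          Finset.sum_le_sum fun l _ => hx' l
        rw [Finset.sum_add_distrib] at h5
        linarith
  intro φ hφ x hx
  obtain ⟨o, Φ, h1, h2, h3⟩ := H Finset.univ φ hφ x hx
  exact ⟨o, Φ, h1, fun i => h2 i (Finset.mem_univ i), h3⟩

end Pool.Agent.T9h24.Fu
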