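import Mathlib
import Pool.Agent.T9h24.Fu.Spec

/-!
FU: hyperplanes of projective space, exact statement (optional piece).
-/

set_option autoImplicit false

open MvPolynomial Module

namespace Pool.Agent.T9h24.Fu

open Pool.Agent.T9h24 Pool.Agent.T9h24.Ft

/-- **(H)** The forms of degree `d` which vanish to the order `e` along the hyperplane `L = 0`. Sketch.
`sat (span {L} ^ e) = span {L ^ e}` as `L` is prime and does not divide all `X l` (`1 ≤ n`); the forms
of degree `d` divisible by `L ^ e` are `L ^ e Q`, `Q` a form of degree `d - e`; and the forms of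
degree `k` in `n + 1` variables have dimension `(n + k).choose n`. -/
def StHyp : Prop := ∀ (n d e : ℕ) (L : MvPolynomial (Fin (n + 1)) (AlgebraicClosure ℚ)),
  L.IsHomogeneous 1 → L ≠ 0 → 1 ≤ n → e ≤ d →
  finrank (AlgebraicClosure ℚ) (homogeneousSubmodule (Fin (n + 1)) (AlgebraicClosure ℚ) d ⊓
    (sat (Ideal.span {L} ^ e)).restrictScalars (AlgebraicClosure ℚ) :
      Submodule (AlgebraicClosure ℚ) (MvPolynomial (Fin (n + 1)) (AlgebraicClosure ℚ))) =
    (n + d - e).choose n

end Pool.Agent.T9h24.Fu
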